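import Pool.Agent.helper47.SC.Spec

set_option autoImplicit false

open scoped Topology ContDiff
open Set Filter Metric MeasureTheory
open Pool.Agent.helper90.KMMP (levi hess)

namespace Pool.Agent.SC

theorem VSM_levi_const {E : Type} [NormedAddCommGroup E] [NormedSpace ℂ E] (c : ℝ) (x v : E) :
    levi (fun _ : E => c) x v = 0 := by
  have h : fderiv ℝ (fun _ : E => c) = fun _ => 0 := by
    ext y : 1
    exact fderiv_const_apply c
  unfold levi hess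
  rw [h]
  simp

theorem VSM_isOpen (hN : NSQ_stmt) {s : ℕ → C3} {D : ℕ → ℝ} {T : Set C3} (hD : Data s D T) :
    IsOpen {w : C3 | nsq w < 1 / 4 ∧ w ∉ T} :=
  (isOpen_lt hN.2.1 continuous_const).inter hD.closed.isOpen_compl

theorem VSM_fst {g : ℂ → ℝ} {q : C4} (hg : ContDiffAt ℝ 2 g q.1) (v : C4) :
    levi (fun q : C4 => g q.1) q v = levi g q.1 v.1 := by
  have h := Pool.Agent.helper90.KMMP.levi_comp (f := fun q : C4 => q.1) (x := q) (u := g) hg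
    ((ContinuousLinearMap.fst ℂ ℂ C3).analyticAt q) v
  rw [h]
  congr 1
  have h2 : fderiv ℂ (fun q : C4 => q.1) q = ContinuousLinearMap.fst ℂ ℂ C3 :=
    (ContinuousLinearMap.fst ℂ ℂ C3).fderiv
  rw [h2]
  rfl

theorem VSM_snd {g : C3 → ℝ} {q : C4} (hg : ContDiffAt ℝ 2 g q.2) (v : C4) :
    levi (fun q : C4 => g q.2) q v = levi g q.2 v.2 := by
  have h := Pool.Agent.helper90.KMMP.levi_comp (f := fun q : C4 => q.2) (x := q) (u := g) hg
    ((ContinuousLinearMap.snd ℂ ℂ C3).analyticAt q) v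
  rw [h]
  congr 1
  have h2 : fderiv ℂ (fun q : C4 => q.2) q = ContinuousLinearMap.snd ℂ ℂ C3 :=
    (ContinuousLinearMap.snd ℂ ℂ C3).fderiv
  rw [h2]
  rfl

theorem VSM_log (x : ℂ) {n : WithTop ℕ∞} :
    ContDiffAt ℝ n (fun x : ℂ => 1 / 2 * Real.log (1 + ‖x‖ ^ 2)) x := by
  have h1 : ContDiff ℝ n fun z : ℂ => ‖z‖ ^ 2 := contDiff_norm_sq ℝ
  have h2 : ContDiffAt ℝ n (fun z : ℂ => 1 + ‖z‖ ^ 2) x := contDiffAt_const.add h1.contDiffAt
  have h3 : (1 : ℝ) + ‖x‖ ^ 2 ≠ 0 := by positivity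
  exact contDiffAt_const.mul (h2.log h3)

theorem VSM (hW : WSM_stmt) (hL : LGS_stmt) (hN : NSQ_stmt) : VSM_stmt := by
  intro s D T m hD h10
  obtain ⟨hW1, hW2, -⟩ := hW s D T m hD h10
  have hS := VSM_isOpen hN hD
  have hWat : ∀ w : C3, nsq w < 1 / 4 → w ∉ T → ContDiffAt ℝ ∞ (WW s m) w := fun w h1 h2 =>
    hW1.contDiffAt (hS.mem_nhds ⟨h1, h2⟩)
  have hnsq : ∀ w : C3, ContDiffAt ℝ ∞ nsq w := fun w => hN.2.2.1.contDiffAt
  refine ⟨hS.preimage continuous_snd, ?_, ?_⟩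
  · intro q hq
    have hq' : nsq q.2 < 1 / 4 ∧ q.2 ∉ T := hq
    have h1 : ContDiffAt ℝ ∞ (fun q : C4 => 1 / 2 * Real.log (1 + ‖q.1‖ ^ 2)) q :=
      (VSM_log q.1).comp q contDiffAt_fst
    have h2 : ContDiffAt ℝ ∞ (fun q : C4 => WW s m q.2) q :=
      (hWat q.2 hq'.1 hq'.2).comp q contDiffAt_snd
    have h3 : ContDiffAt ℝ ∞ (fun q : C4 => 64 * nsq q.2) q :=
      contDiffAt_const.mul ((hnsq q.2).comp q contDiffAt_snd)
    exact (((h1.add h2).add h3).sub contDiffAt_const).contDiffWithinAt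
  · intro q hq v hv
    have hq' : nsq q.2 < 1 / 4 ∧ q.2 ∉ T := hq
    have e2 : (2 : WithTop ℕ∞) ≤ ∞ := by
      have h := WithTop.coe_le_coe.2 (le_top : (2 : ℕ∞) ≤ ⊤)
      exact h
    have g1 : ContDiffAt ℝ 2 (fun x : ℂ => 1 / 2 * Real.log (1 + ‖x‖ ^ 2)) q.1 := VSM_log q.1
    have g2 : ContDiffAt ℝ 2 (WW s m) q.2 := (hWat q.2 hq'.1 hq'.2).of_le e2
    have g3 : ContDiffAt ℝ 2 nsq q.2 := (hnsq q.2).of_le e2
    have h1 : ContDiffAt ℝ 2 (fun q : C4 => 1 / 2 * Real.log (1 + ‖q.1‖ ^ 2)) q :=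
      g1.comp q contDiffAt_fst
    have h2 : ContDiffAt ℝ 2 (fun q : C4 => WW s m q.2) q := g2.comp q contDiffAt_snd
    have h3' : ContDiffAt ℝ 2 (fun q : C4 => nsq q.2) q := g3.comp q contDiffAt_snd
    have h3 : ContDiffAt ℝ 2 (fun q : C4 => 64 * nsq q.2) q := contDiffAt_const.mul h3'
    have key : levi (VV s m) q v =
        levi (fun x : ℂ => 1 / 2 * Real.log (1 + ‖x‖ ^ 2)) q.1 v.1 + levi (WW s m) q.2 v.2 +
          64 * (4 * nsq v.2) := by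
      have e0 : levi (VV s m) q v = levi (fun q : C4 => (1 / 2 * Real.log (1 + ‖q.1‖ ^ 2) +
          WW s m q.2 + 64 * nsq q.2) - 3) q v := rfl
      rw [e0, Pool.Agent.helper90.KMMP.levi_sub ((h1.add h2).add h3) contDiffAt_const,
        Pool.Agent.helper90.KMMP.levi_add (h1.add h2) h3,
        Pool.Agent.helper90.KMMP.levi_add h1 h2, Pool.Agent.helper90.KMMP.levi_const_mul 64 h3',
        VSM_levi_const, VSM_fst g1, VSM_snd g2, VSM_snd g3, hL.2.2.1]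
      ring
    rw [key]
    have hw := hW2 q.2 hq'.1 hq'.2 v.2
    have hn0 : 0 ≤ nsq v.2 := hN.2.2.2.2.2.1 v.2
    by_cases hv1 : v.1 = 0
    · have hv2 : v.2 ≠ 0 := by
        intro h
        exact hv (Prod.ext hv1 h)
      have hn1 : nsq v.2 ≠ 0 := fun h => hv2 ((hN.2.2.2.2.1 v.2).1 h)
      have hn2 : 0 < nsq v.2 := lt_of_le_of_ne hn0 (Ne.symm hn1)
      rw [hv1, Pool.Agent.helper90.KMMP.levi_zero_right]
      linarith
    · have hx := hL.2.2.2 q.1 v.1 hv1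
      linarith

end Pool.Agent.SC
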